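import Mathlib

set_option autoImplicit false

/-!
The shift operator on `ℓ_p(𝕜²)` generated by the constant sequence with value the Jordan block
`(u, v) ↦ (u + v, v)` is not linearly conjugate to any finite product of weighted backward shifts.
-/

open scoped ENNReal

namespace Pool.Agent.Results.MP_43e0cc_an.JordanShift

/-- The bilateral sequence space `ℓ_p(X)`. -/
abbrev Ell (p : ℝ≥0∞) (X : Type) [NormedAddCommGroup X] : Type :=
  lp (fun _ : ℤ => X) p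

/-- The space `𝕜^d` with the Euclidean norm. -/
abbrev V (𝕜 : Type) (d : ℕ) : Type := EuclideanSpace 𝕜 (Fin d)

/-- The `n`-th term of the sequence `x`. -/
def term {p : ℝ≥0∞} {X : Type} [NormedAddCommGroup X] (x : Ell p X) (n : ℤ) : X := x n

/-- `S` is a sequence of invertible `d × d` matrices such that the entries of `S_n` and of the
inverses `S_n⁻¹` are uniformly bounded. -/
def UniformlyBounded {𝕜 : Type} [RCLike 𝕜] {d : ℕ} (S : ℤ → Matrix (Fin d) (Fin d) 𝕜) : Prop :=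
  ∃ C : ℝ, ∀ n, IsUnit (S n) ∧ ∀ i j, ‖S n i j‖ ≤ C ∧ ‖(S n)⁻¹ i j‖ ≤ C

/-- `T` is the shift operator on `ℓ_p(𝕜^d)` generated by the sequence `S` of matrices:
`(T x)_n = S_{n+1} x_{n+1}`. -/
def IsShiftOperator {𝕜 : Type} [RCLike 𝕜] {p : ℝ≥0∞} {d : ℕ}
    (S : ℤ → Matrix (Fin d) (Fin d) 𝕜) (T : Ell p (V 𝕜 d) → Ell p (V 𝕜 d)) : Prop :=
  ∀ (x : Ell p (V 𝕜 d)) (n : ℤ) (i : Fin d), term (T x) n i = ∑ j, S (n + 1) i j * term x (n + 1) j

/-- `B` is the weighted backward shift on `ℓ_p(𝕜)` with weight sequence `ω`, where `ω` is bounded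
and bounded away from zero: `(B y)_n = ω_{n+1} y_{n+1}`. -/
def IsWeightedShift {𝕜 : Type} [RCLike 𝕜] {p : ℝ≥0∞} (ω : ℤ → 𝕜)
    (B : Ell p 𝕜 → Ell p 𝕜) : Prop :=
  (∃ c > 0, ∃ C : ℝ, ∀ n, c ≤ ‖ω n‖ ∧ ‖ω n‖ ≤ C) ∧
    ∀ (y : Ell p 𝕜) (n : ℤ), term (B y) n = ω (n + 1) * term y (n + 1)

/-- `H` is a bounded linear bijection of the normed space `E` onto the normed space `F`. -/
def IsBoundedLinearBijection (𝕜 : Type) [RCLike 𝕜] {E F : Type} [NormedAddCommGroup E]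
    [NormedSpace 𝕜 E] [NormedAddCommGroup F] [NormedSpace 𝕜 F] (H : E → F) : Prop :=
  IsBoundedLinearMap 𝕜 H ∧ Function.Bijective H

/-- The map `T` of `ℓ_p(𝕜^d)` is linearly conjugate to a finite product `B_1 × ... × B_k` of
weighted backward shifts acting coordinatewise on `ℓ_p(𝕜)^k`: there is a bounded linear bijection
`H` of `ℓ_p(𝕜^d)` onto `ℓ_p(𝕜)^k` with `H T = (B_1 × ... × B_k) H`. -/
def IsConjugateToProduct {𝕜 : Type} [RCLike 𝕜] {p : ℝ≥0∞} [Fact (1 ≤ p)] {d : ℕ}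
    (T : Ell p (V 𝕜 d) → Ell p (V 𝕜 d)) : Prop :=
  ∃ (k : ℕ) (ω : Fin k → ℤ → 𝕜) (B : Fin k → (Ell p 𝕜 → Ell p 𝕜))
    (H : Ell p (V 𝕜 d) → (Fin k → Ell p 𝕜)), (∀ i, IsWeightedShift (ω i) (B i)) ∧
      IsBoundedLinearBijection 𝕜 H ∧ ∀ x i, H (T x) i = B i (H x i)

namespace Aux

variable {𝕜 : Type} [RCLike 𝕜] {p : ℝ≥0∞} [Fact (1 ≤ p)]

section Construction

variable {X : Type} [NormedAddCommGroup X] [NormedSpace 𝕜 X]

theorem p_pos (hp : p ≠ ⊤) : 0 < p.toReal :=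
  ENNReal.toReal_pos (zero_lt_one.trans_le Fact.out).ne' hp

theorem summable_shift (hp : p ≠ ⊤) (x : Ell p X) :
    Summable fun n : ℤ => ‖x (n + 1)‖ ^ p.toReal :=
  (Equiv.addRight (1 : ℤ)).summable_iff.2 ((lp.memℓp x).summable (p_pos hp))

theorem tsum_shift (x : Ell p X) :
    ∑' n : ℤ, ‖x (n + 1)‖ ^ p.toReal = ∑' n : ℤ, ‖x n‖ ^ p.toReal :=
  (Equiv.addRight (1 : ℤ)).tsum_eq (fun n => ‖x n‖ ^ p.toReal)

theorem pointwise (S : X →L[𝕜] X) (y : X) :
    ‖S y‖ ^ p.toReal ≤ ‖S‖ ^ p.toReal * ‖y‖ ^ p.toReal := by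
  rw [← Real.mul_rpow (norm_nonneg _) (norm_nonneg _)]
  exact Real.rpow_le_rpow (norm_nonneg _) (S.le_opNorm y) ENNReal.toReal_nonneg

theorem mem_shift (hp : p ≠ ⊤) (S : X →L[𝕜] X) (x : Ell p X) :
    Memℓp (fun n : ℤ => S (x (n + 1))) p := by
  apply memℓp_gen
  exact Summable.of_nonneg_of_le (fun n => by positivity) (fun n => pointwise S (x (n + 1)))
    ((summable_shift hp x).mul_left _)

/-- the shift generated by a constant sequence -/
noncomputable def shiftOp (hp : p ≠ ⊤) (S : X →L[𝕜] X) : Ell p X →L[𝕜] Ell p X :=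
  LinearMap.mkContinuous
    { toFun := fun x => ⟨fun n : ℤ => S (x (n + 1)), mem_shift hp S x⟩
      map_add' := fun x y => by
        ext n
        show S ((x + y) (n + 1)) = S (x (n + 1)) + S (y (n + 1))
        rw [← map_add]
        rfl
      map_smul' := fun c x => by
        ext n
        show S ((c • x) (n + 1)) = c • S (x (n + 1))
        rw [← map_smul]
        rfl } ‖S‖ (by
    intro x
    have hp0 := p_pos hp
    apply lp.norm_le_of_tsum_le hp0 (by positivity)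
    show ∑' n : ℤ, ‖S (x (n + 1))‖ ^ p.toReal ≤ _
    rw [Real.mul_rpow (norm_nonneg _) (norm_nonneg _), lp.norm_rpow_eq_tsum hp0, ← tsum_shift,
      ← tsum_mul_left]
    exact Summable.tsum_le_tsum (fun n => pointwise S (x (n + 1)))
      ((lp.memℓp (⟨fun n : ℤ => S (x (n + 1)), mem_shift hp S x⟩ : Ell p X)).summable hp0)
      ((summable_shift hp x).mul_left _))

theorem shiftOp_apply (hp : p ≠ ⊤) (S : X →L[𝕜] X) (x : Ell p X) (n : ℤ) :
    shiftOp hp S x n = S (x (n + 1)) := rfl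

end Construction

/-- bounded orbits -/
def BO {E : Type} [SeminormedAddCommGroup E] [NormedSpace 𝕜 E] (T : E →L[𝕜] E) (x : E) : Prop :=
  ∃ C : ℝ, ∀ n : ℕ, ‖(T ^ n) x‖ ≤ C

theorem BO_apply {E : Type} [SeminormedAddCommGroup E] [NormedSpace 𝕜 E] (T : E →L[𝕜] E) (x : E) :
    BO T (T x) ↔ BO T x := by
  constructor
  · rintro ⟨C, hC⟩
    refine ⟨max C ‖x‖, fun n => ?_⟩
    rcases n with _ | n
    · simp
    · rw [pow_succ]
      exact (hC n).trans (le_max_left _ _)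
  · rintro ⟨C, hC⟩
    refine ⟨C, fun n => ?_⟩
    have := hC (n + 1)
    rwa [pow_succ] at this

theorem BO_smul {E : Type} [SeminormedAddCommGroup E] [NormedSpace 𝕜 E] (T : E →L[𝕜] E) (x : E)
    (c : 𝕜) (h : BO T x) : BO T (c • x) := by
  obtain ⟨C, hC⟩ := h
  refine ⟨‖c‖ * C, fun n => ?_⟩
  rw [map_smul, norm_smul]
  exact mul_le_mul_of_nonneg_left (hC n) (norm_nonneg _)

theorem BO_smul_iff {E : Type} [SeminormedAddCommGroup E] [NormedSpace 𝕜 E] (T : E →L[𝕜] E)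
    (x : E) (c : 𝕜) (hc : c ≠ 0) : BO T (c • x) ↔ BO T x := by
  refine ⟨fun h => ?_, BO_smul T x c⟩
  have := BO_smul T _ c⁻¹ h
  rwa [smul_smul, inv_mul_cancel₀ hc, one_smul] at this

section Weighted

/-- weighted shifts as continuous linear maps -/
def IsWS (ω : ℤ → 𝕜) (B : Ell p 𝕜 →L[𝕜] Ell p 𝕜) : Prop :=
  (∃ c > 0, ∃ C : ℝ, ∀ n, c ≤ ‖ω n‖ ∧ ‖ω n‖ ≤ C) ∧
    ∀ (y : Ell p 𝕜) (n : ℤ), B y n = ω (n + 1) * y (n + 1)

variable {ω : ℤ → 𝕜} {B : Ell p 𝕜 →L[𝕜] Ell p 𝕜}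

theorem ω_ne (h : IsWS ω B) (n : ℤ) : ω n ≠ 0 := by
  obtain ⟨⟨c, hc, C, hC⟩, -⟩ := h
  intro h0
  have := (hC n).1
  rw [h0, norm_zero] at this
  linarith

theorem B_single (h : IsWS ω B) (m : ℤ) (a : 𝕜) :
    B (lp.single p m a) = lp.single p (m - 1) (ω m * a) := by
  ext n
  rw [h.2, lp.single_apply, lp.single_apply]
  by_cases hn : n = m - 1
  · subst hn
    rw [show m - 1 + 1 = m by ring, Pi.single_eq_same, Pi.single_eq_same]
  · rw [Pi.single_eq_of_ne hn, Pi.single_eq_of_ne (by omega), mul_zero]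

theorem single_smul_one (m : ℤ) (a : 𝕜) :
    (lp.single p m a : Ell p 𝕜) = a • lp.single p m (1 : 𝕜) := by
  rw [← lp.single_smul, smul_eq_mul, mul_one]

theorem BO_single_step (h : IsWS ω B) (m : ℤ) :
    BO B (lp.single p (m - 1) (1 : 𝕜)) ↔ BO B (lp.single p m (1 : 𝕜)) := by
  rw [← BO_apply B (lp.single p m (1 : 𝕜)), B_single h, mul_one, single_smul_one (m - 1) (ω m),
    BO_smul_iff _ _ _ (ω_ne h m)]

theorem BO_single (h : IsWS ω B) (m : ℤ) :
    BO B (lp.single p m (1 : 𝕜)) ↔ BO B (lp.single p 0 (1 : 𝕜)) := by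
  induction m using Int.induction_on with
  | zero => exact Iff.rfl
  | succ i ih =>
    have := BO_single_step h ((i : ℤ) + 1)
    rw [show (i : ℤ) + 1 - 1 = i by ring] at this
    rw [← this]
    exact ih
  | pred i ih =>
    rw [BO_single_step h]
    exact ih

theorem pow_formula (h : IsWS ω B) (m : ℤ) (n : ℕ) :
    ∃ P : 𝕜, (B ^ n) (lp.single p m (1 : 𝕜)) = lp.single p (m - n) P ∧
      ∀ y : Ell p 𝕜, (B ^ n) y (m - n) = P * y m := by
  induction n with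
  | zero => exact ⟨1, by simp, by simp⟩
  | succ n ih =>
    obtain ⟨P, h1, h2⟩ := ih
    refine ⟨ω (m - n) * P, ?_, fun y => ?_⟩
    · rw [pow_succ', mul_apply_eq_comp, h1, B_single h]
      congr 1
      push_cast
      ring
    · rw [pow_succ', mul_apply_eq_comp, h.2]
      have e : m - ((n + 1 : ℕ) : ℤ) + 1 = m - n := by push_cast; ring
      rw [e, h2]
      ring

theorem BO_of_ne (h : IsWS ω B) (y : Ell p 𝕜) (hy : BO B y) (m : ℤ) (hm : y m ≠ 0) :
    BO B (lp.single p 0 (1 : 𝕜)) := by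
  rw [← BO_single h m]
  obtain ⟨C, hC⟩ := hy
  refine ⟨C / ‖y m‖, fun n => ?_⟩
  obtain ⟨P, h1, h2⟩ := pow_formula h m n
  rw [h1, lp.norm_single (zero_lt_one.trans_le Fact.out), le_div_iff₀ (norm_pos_iff.2 hm), ← norm_mul,
    ← h2]
  exact (lp.norm_apply_le_norm (zero_lt_one.trans_le Fact.out).ne' _ _).trans (hC n)

end Weighted

variable (𝕜) in
/-- the Jordan block, as a linear equivalence of `𝕜²` -/
noncomputable def J : EuclideanSpace 𝕜 (Fin 2) ≃L[𝕜] EuclideanSpace 𝕜 (Fin 2) :=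
  LinearEquiv.toContinuousLinearEquiv
    { toFun := fun x => !₂[x 0 + x 1, x 1]
      invFun := fun x => !₂[x 0 - x 1, x 1]
      map_add' := fun x y => by
        ext i; fin_cases i <;> simp; ring
      map_smul' := fun c x => by
        ext i; fin_cases i <;> simp; ring
      left_inv := fun x => by
        ext i; fin_cases i <;> simp
      right_inv := fun x => by
        ext i; fin_cases i <;> simp }

theorem J_zero (x : EuclideanSpace 𝕜 (Fin 2)) : (J 𝕜 x) 0 = x 0 + x 1 := rfl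

theorem J_one (x : EuclideanSpace 𝕜 (Fin 2)) : (J 𝕜 x) 1 = x 1 := rfl

/-- the operator -/
noncomputable def T (hp : p ≠ ⊤) : Ell p (EuclideanSpace 𝕜 (Fin 2)) →L[𝕜]
    Ell p (EuclideanSpace 𝕜 (Fin 2)) :=
  shiftOp hp (J 𝕜 : EuclideanSpace 𝕜 (Fin 2) →L[𝕜] EuclideanSpace 𝕜 (Fin 2))

theorem T_apply (hp : p ≠ ⊤) (x : Ell p (EuclideanSpace 𝕜 (Fin 2))) (n : ℤ) :
    T hp x n = J 𝕜 (x (n + 1)) := rfl

theorem T_pow (hp : p ≠ ⊤) (x : Ell p (EuclideanSpace 𝕜 (Fin 2))) (k : ℕ) (n : ℤ) :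
    ((T hp ^ k) x n) 1 = (x (n + k)) 1 ∧ ((T hp ^ k) x n) 0 = (x (n + k)) 0 + k * (x (n + k)) 1 := by
  induction k generalizing n with
  | zero => simp
  | succ k ih =>
    rw [pow_succ', mul_apply_eq_comp, T_apply, J_one, J_zero, (ih (n + 1)).1,
      (ih (n + 1)).2]
    have e : n + 1 + (k : ℤ) = n + ((k + 1 : ℕ) : ℤ) := by push_cast; ring
    rw [e]
    refine ⟨rfl, ?_⟩
    push_cast
    ring

theorem T_single (hp : p ≠ ⊤) (m : ℤ) (a : EuclideanSpace 𝕜 (Fin 2)) :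
    T hp (lp.single p m a) = lp.single p (m - 1) (J 𝕜 a) := by
  ext1
  funext n
  rw [T_apply, lp.single_apply, lp.single_apply]
  by_cases hn : n = m - 1
  · subst hn
    rw [show m - 1 + 1 = m by ring, Pi.single_eq_same, Pi.single_eq_same]
  · rw [Pi.single_eq_of_ne hn, Pi.single_eq_of_ne (by omega), map_zero]

/-- vectors with bounded orbit -/
theorem BO_T (hp : p ≠ ⊤) (x : Ell p (EuclideanSpace 𝕜 (Fin 2))) (hx : BO (T hp) x) (m : ℤ) :
    (x m) 1 = 0 := by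
  obtain ⟨C, hC⟩ := hx
  by_contra h
  have h0 : 0 < ‖(x m) 1‖ := norm_pos_iff.2 h
  obtain ⟨k, hk⟩ := exists_nat_gt ((C + ‖(x m) 0‖) / ‖(x m) 1‖)
  rw [div_lt_iff₀ h0] at hk
  have h1 := (T_pow hp x k (m - k)).2
  rw [sub_add_cancel] at h1
  have h2 : ‖((T hp ^ k) x (m - k)) 0‖ ≤ C :=
    ((PiLp.norm_apply_le _ 0).trans
      (lp.norm_apply_le_norm (zero_lt_one.trans_le Fact.out).ne' _ _)).trans (hC k)
  rw [h1] at h2
  have h3 : ‖(k : 𝕜) * (x m) 1‖ ≤ ‖(x m) 0 + k * (x m) 1‖ + ‖(x m) 0‖ := by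
    have := norm_sub_le ((x m) 0 + k * (x m) 1) ((x m) 0)
    rwa [add_sub_cancel_left] at this
  rw [norm_mul, RCLike.norm_natCast] at h3
  linarith

/-- the vectors `(a, 0)` -/
noncomputable def ea (a : 𝕜) : EuclideanSpace 𝕜 (Fin 2) := !₂[a, 0]

/-- the vector `(0, 1)` -/
noncomputable def eb : EuclideanSpace 𝕜 (Fin 2) := !₂[0, 1]

theorem J_ea (a : 𝕜) : J 𝕜 (ea a) = ea a := by
  ext i
  fin_cases i
  · show (J 𝕜 (ea a)) 0 = (ea a) 0
    rw [J_zero]
    simp [ea]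
  · exact J_one _

theorem J_ea_add_eb (a : 𝕜) : J 𝕜 (ea a + eb) = ea (a + 1) + eb := by
  ext i
  fin_cases i
  · show (J 𝕜 (ea a + eb)) 0 = ((ea (a + 1) + eb : EuclideanSpace 𝕜 (Fin 2))) 0
    rw [J_zero]
    simp [ea, eb]
  · show (J 𝕜 (ea a + eb)) 1 = ((ea (a + 1) + eb : EuclideanSpace 𝕜 (Fin 2))) 1
    rw [J_one]
    simp [ea, eb]

theorem BO_ea (hp : p ≠ ⊤) (m : ℤ) (a : 𝕜) :
    BO (𝕜 := 𝕜) (T hp) (lp.single p m (ea a) : Ell p (EuclideanSpace 𝕜 (Fin 2))) := by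
  refine ⟨‖ea a‖, fun n => ?_⟩
  have h : (T hp ^ n) (lp.single p m (ea a) : Ell p (EuclideanSpace 𝕜 (Fin 2))) =
      lp.single p (m - n) (ea a) := by
    induction n with
    | zero => simp
    | succ n ih =>
      rw [pow_succ', mul_apply_eq_comp, ih, T_single, J_ea]
      congr 1
      push_cast
      ring
  rw [h, lp.norm_single (zero_lt_one.trans_le Fact.out)]

theorem T_pow_eb (hp : p ≠ ⊤) (n : ℕ) :
    (T hp ^ n) (lp.single p 0 eb : Ell p (EuclideanSpace 𝕜 (Fin 2))) =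
      lp.single p (-n : ℤ) (ea (n : 𝕜)) + lp.single p (-n : ℤ) eb := by
  induction n with
  | zero =>
    have h0 : ea ((0 : ℕ) : 𝕜) = 0 := by ext i; fin_cases i <;> simp [ea]
    rw [h0, lp.single_zero, zero_add, pow_zero, Nat.cast_zero, neg_zero]
    rfl
  | succ n ih =>
    rw [pow_succ', mul_apply_eq_comp, ih, ← lp.single_add, T_single, J_ea_add_eb,
      lp.single_add]
    have e : -(n : ℤ) - 1 = -((n + 1 : ℕ) : ℤ) := by push_cast; ring
    rw [e]
    push_cast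
    rfl

theorem main (hp : p ≠ ⊤) (k : ℕ) (ω : Fin k → ℤ → 𝕜) (B : Fin k → (Ell p 𝕜 →L[𝕜] Ell p 𝕜))
    (hB : ∀ i, IsWS (ω i) (B i))
    (H : Ell p (EuclideanSpace 𝕜 (Fin 2)) ≃L[𝕜] (Fin k → Ell p 𝕜))
    (hH : ∀ x i, H (T hp x) i = B i (H x i)) : False := by
  classical
  have hpow : ∀ (n : ℕ) x i, H ((T hp ^ n) x) i = (B i ^ n) (H x i) := by
    intro n
    induction n with
    | zero => intro x i; simp
    | succ n ih =>
      intro x i
      rw [pow_succ', mul_apply_eq_comp, hH, ih, pow_succ',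
        mul_apply_eq_comp]
  -- the set of coordinates with bounded orbits
  let A : Set (Fin k) := {i | BO (B i) (lp.single p 0 (1 : 𝕜) : Ell p 𝕜)}
  -- the projection
  let Q : (Fin k → Ell p 𝕜) →L[𝕜] (Fin k → Ell p 𝕜) :=
    ContinuousLinearMap.pi fun i => if i ∈ A then 0 else ContinuousLinearMap.proj i
  have hQ : ∀ y i, Q y i = if i ∈ A then 0 else y i := by
    intro y i
    show (if i ∈ A then (0 : (Fin k → Ell p 𝕜) →L[𝕜] Ell p 𝕜) else ContinuousLinearMap.proj i) y = _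
    split_ifs <;> rfl
  let R : Ell p (EuclideanSpace 𝕜 (Fin 2)) →L[𝕜] Ell p (EuclideanSpace 𝕜 (Fin 2)) :=
    (H.symm : (Fin k → Ell p 𝕜) →L[𝕜] Ell p (EuclideanSpace 𝕜 (Fin 2))) ∘L Q ∘L
      (H : Ell p (EuclideanSpace 𝕜 (Fin 2)) →L[𝕜] (Fin k → Ell p 𝕜))
  have hHR : ∀ x, H (R x) = Q (H x) := fun x => H.apply_symm_apply _
  -- `R` commutes with the powers of `T`
  have hRT : ∀ (n : ℕ) x, (T hp ^ n) (R x) = R ((T hp ^ n) x) := by
    intro n x
    apply H.injective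
    funext i
    rw [hpow, hHR, hHR, hQ, hQ, hpow]
    split_ifs
    · exact map_zero _
    · rfl
  -- `R` kills the vectors with bounded orbit
  have hRBO : ∀ x, BO (T hp) x → R x = 0 := by
    intro x hx
    apply H.injective
    funext i
    rw [hHR, hQ, map_zero]
    split_ifs with hi
    · rfl
    · by_contra hne
      apply hi
      obtain ⟨m, hm⟩ : ∃ m, (H x i) m ≠ 0 := by
        by_contra hall
        push Not at hall
        apply hne
        ext m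
        exact hall m
      apply BO_of_ne (hB i) (H x i) _ m hm
      obtain ⟨C, hC⟩ := hx
      refine ⟨‖(H : Ell p (EuclideanSpace 𝕜 (Fin 2)) →L[𝕜] (Fin k → Ell p 𝕜))‖ * C, fun n => ?_⟩
      rw [← hpow]
      calc ‖H ((T hp ^ n) x) i‖ ≤ ‖H ((T hp ^ n) x)‖ := norm_le_pi_norm _ i
        _ ≤ ‖(H : Ell p (EuclideanSpace 𝕜 (Fin 2)) →L[𝕜] (Fin k → Ell p 𝕜))‖ * ‖(T hp ^ n) x‖ :=
            (H : Ell p (EuclideanSpace 𝕜 (Fin 2)) →L[𝕜] (Fin k → Ell p 𝕜)).le_opNorm _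
        _ ≤ _ := mul_le_mul_of_nonneg_left (hC n) (norm_nonneg _)
  -- the vector
  set x₀ : Ell p (EuclideanSpace 𝕜 (Fin 2)) := lp.single p 0 eb with hx₀
  have hx₀BO : BO (T hp) (R x₀) := by
    refine ⟨‖R‖ * ‖(eb : EuclideanSpace 𝕜 (Fin 2))‖, fun n => ?_⟩
    rw [hRT, hx₀, T_pow_eb, map_add, hRBO _ (BO_ea hp _ _), zero_add]
    refine (R.le_opNorm _).trans ?_
    rw [lp.norm_single (zero_lt_one.trans_le Fact.out)]
  have hRR : R (R x₀) = 0 := hRBO _ hx₀BO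
  have hR0 : Q (H x₀) = 0 := by
    have h1 : H (R (R x₀)) = 0 := by rw [hRR, map_zero]
    rw [hHR, hHR] at h1
    funext i
    have h2 := congrFun h1 i
    rw [hQ] at h2 ⊢
    split_ifs at h2 ⊢ with hi
    · rfl
    · rw [hQ, if_neg hi] at h2
      exact h2
  -- vectors supported in `A` correspond to vectors with vanishing second component
  have hdens : ∀ i ∈ A, ∀ (y : Ell p 𝕜) (m : ℤ), ((H.symm (Pi.single i y)) m) 1 = 0 := by
    intro i hi y m
    let L : Ell p 𝕜 →L[𝕜] 𝕜 :=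
      (EuclideanSpace.proj (1 : Fin 2) : EuclideanSpace 𝕜 (Fin 2) →L[𝕜] 𝕜) ∘L
        (lp.evalCLM 𝕜 (fun _ : ℤ => EuclideanSpace 𝕜 (Fin 2)) p m) ∘L
        (H.symm : (Fin k → Ell p 𝕜) →L[𝕜] Ell p (EuclideanSpace 𝕜 (Fin 2))) ∘L
        (ContinuousLinearMap.single 𝕜 (fun _ : Fin k => Ell p 𝕜) i)
    have hL : L = 0 := by
      apply lp.ext_continuousLinearMap hp
      intro j
      ext
      show ((H.symm (Pi.single i (lp.single p j (1 : 𝕜)))) m) 1 = 0
      apply BO_T hp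
      obtain ⟨C, hC⟩ := (BO_single (hB i) j).2 hi
      refine ⟨‖(H.symm : (Fin k → Ell p 𝕜) →L[𝕜] Ell p (EuclideanSpace 𝕜 (Fin 2)))‖ * max C 0,
        fun n => ?_⟩
      have h1 : (T hp ^ n) (H.symm (Pi.single i (lp.single p j (1 : 𝕜)))) =
          H.symm (H ((T hp ^ n) (H.symm (Pi.single i (lp.single p j (1 : 𝕜)))))) :=
        (H.symm_apply_apply _).symm
      rw [h1]
      refine ((H.symm : (Fin k → Ell p 𝕜) →L[𝕜] Ell p (EuclideanSpace 𝕜 (Fin 2))).le_opNorm _).trans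
        (mul_le_mul_of_nonneg_left ?_ (norm_nonneg _))
      rw [pi_norm_le_iff_of_nonneg (le_max_right _ _)]
      intro i'
      rw [hpow, H.apply_symm_apply]
      by_cases hi' : i' = i
      · subst hi'
        rw [Pi.single_eq_same]
        exact (hC n).trans (le_max_left _ _)
      · rw [Pi.single_eq_of_ne hi', map_zero, norm_zero]
        exact le_max_right _ _
    exact DFunLike.congr_fun hL y
  have hfin : (x₀ 0) 1 = 0 := by
    have h1 : H x₀ = ∑ i, Pi.single i (H x₀ i) := (Finset.univ_sum_single (H x₀)).symm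
    have h2 : x₀ = ∑ i, H.symm (Pi.single i (H x₀ i)) := by
      rw [← map_sum, ← h1, H.symm_apply_apply]
    have h3 : ∀ i, ((H.symm (Pi.single i (H x₀ i))) (0 : ℤ)) (1 : Fin 2) = 0 := by
      intro i
      by_cases hi : i ∈ A
      · exact hdens i hi _ _
      · have h4 := congrFun hR0 i
        rw [hQ, if_neg hi] at h4
        rw [h4]
        simp
    have h5 : (x₀ 0) 1 = ∑ i, ((H.symm (Pi.single i (H x₀ i))) (0 : ℤ)) (1 : Fin 2) := by
      conv_lhs => rw [h2]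
      rw [lp.coeFn_sum, Finset.sum_apply]
      simp
    rw [h5]
    exact Finset.sum_eq_zero fun i _ => h3 i
  rw [hx₀, lp.single_apply_self] at hfin
  simp [eb] at hfin

end Aux

open Aux

/-- **Main result.** For `𝕜 = ℝ` or `ℂ` and every `1 ≤ p < ∞` there is a sequence `S` of invertible
linear maps of `𝕜²`, with `S_n` and `S_n⁻¹` uniformly bounded, whose shift operator on `ℓ_p(𝕜²)` is
not linearly conjugate to any finite product of weighted backward shifts on `ℓ_p(𝕜)`. -/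
theorem result (𝕜 : Type) [RCLike 𝕜] (p : ℝ≥0∞) [Fact (1 ≤ p)] (hp : p ≠ ⊤) :
    ∃ (S : ℤ → Matrix (Fin 2) (Fin 2) 𝕜) (T : Ell p (V 𝕜 2) → Ell p (V 𝕜 2)),
      UniformlyBounded S ∧ IsShiftOperator S T ∧ ¬ IsConjugateToProduct T := by
  refine ⟨fun _ => !![1, 1; 0, 1], T hp, ?_, ?_, ?_⟩
  · have h1 : (!![1, 1; 0, 1] : Matrix (Fin 2) (Fin 2) 𝕜) * !![1, -1; 0, 1] = 1 := by
      ext i j
      fin_cases i <;> fin_cases j <;> simp [Matrix.mul_apply]
    have h2 : (!![1, 1; 0, 1] : Matrix (Fin 2) (Fin 2) 𝕜)⁻¹ = !![1, -1; 0, 1] :=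
      Matrix.inv_eq_right_inv h1
    refine ⟨1, fun n => ⟨IsUnit.of_mul_eq_one _ h1, fun i j => ?_⟩⟩
    rw [h2]
    fin_cases i <;> fin_cases j <;> simp
  · intro x n i
    show (T hp x n) i = _
    rw [T_apply]
    fin_cases i
    · show (J 𝕜 (x (n + 1))) 0 = _
      rw [J_zero]
      simp [Fin.sum_univ_two, term]
    · show (J 𝕜 (x (n + 1))) 1 = _
      rw [J_one]
      simp [Fin.sum_univ_two, term]
  · rintro ⟨k, ω, B, H, hB, ⟨hH, hbij⟩, hconj⟩
    -- the bounded linear bijection as a linear homeomorphism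
    let e : Ell p (V 𝕜 2) ≃ₗ[𝕜] (Fin k → Ell p 𝕜) :=
      LinearEquiv.ofBijective (IsLinearMap.mk' H hH.toIsLinearMap) hbij
    let H' : Ell p (V 𝕜 2) ≃L[𝕜] (Fin k → Ell p 𝕜) :=
      e.toContinuousLinearEquivOfContinuous hH.continuous
    have hH' : ∀ x, H' x = H x := fun x => rfl
    -- the weighted shifts as continuous linear maps
    have hBc : ∀ i, ∃ B' : Ell p 𝕜 →L[𝕜] Ell p 𝕜, (∀ y, B' y = B i y) := by
      intro i
      let P : Ell p 𝕜 →L[𝕜] (Fin k → Ell p 𝕜) :=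
        ContinuousLinearMap.single 𝕜 (fun _ : Fin k => Ell p 𝕜) i
      refine ⟨(ContinuousLinearMap.proj i : (Fin k → Ell p 𝕜) →L[𝕜] Ell p 𝕜) ∘L
        (H' : Ell p (V 𝕜 2) →L[𝕜] (Fin k → Ell p 𝕜)) ∘L (T hp) ∘L
        (H'.symm : (Fin k → Ell p 𝕜) →L[𝕜] Ell p (V 𝕜 2)) ∘L P, fun y => ?_⟩
      show H' (T hp (H'.symm (Pi.single i y))) i = B i y
      rw [hH', hconj, ← hH', H'.apply_symm_apply, Pi.single_eq_same]
    choose B' hB' using hBc
    refine main hp k ω B' (fun i => ⟨(hB i).1, fun y n => ?_⟩) H' (fun x i => ?_)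
    · rw [hB']
      exact (hB i).2 y n
    · rw [hH', hconj, hB', hH']

end Pool.Agent.Results.MP_43e0cc_an.JordanShift
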